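import Pool.Agent.N658.FF.Stm

/-!
# FF/Abs: the abstract theorem
-/

set_option autoImplicit false
set_option linter.unusedVariables false

open scoped BigOperators InnerProductSpace Classical

noncomputable section

namespace Pool.Agent.N427.FF

open Pool.Agent.N658.FF

section

variable {E : Type} [NormedAddCommGroup E] [InnerProductSpace ℂ E] [FiniteDimensional ℂ E]
variable {T ι : Type}

theorem G_anti (V : T → Submodule ℂ E) {A B : Finset T} (h : A ⊆ B) : G V B ≤ G V A := by
  unfold G
  exact biInf_mono fun x hx => h hx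

theorem G_empty (V : T → Submodule ℂ E) : G V ∅ = ⊤ := by
  unfold G
  simp

theorem sub_Nb [Fintype T] [DecidableEq T] (adj : T → T → Prop) (j : ℕ) (S : Finset T) :
    S ⊆ Nb adj j S := by
  induction j with
  | zero => exact Finset.Subset.refl S
  | succ j ih => exact ih.trans Finset.subset_union_left

theorem rest_mem [DecidableEq T] (X : ι → Finset T) (ts : List ι) (t : ι) (ht : t ∈ ts)
    (x : T) (hx : x ∈ X t) : x ∈ rest X ts := by
  induction ts with
  | nil => simp at ht
  | cons s ts ih =>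
    rw [rest, Finset.mem_union]
    rcases List.mem_cons.1 ht with h | h
    · subst h; exact Or.inl hx
    · exact Or.inr (ih h)

theorem finrank_biSup_le {κ : Type} (s : Finset κ) (K : κ → Submodule ℂ E) :
    Module.finrank ℂ (⨆ i ∈ s, K i : Submodule ℂ E) ≤ ∑ i ∈ s, Module.finrank ℂ (K i) := by
  induction s using Finset.induction_on with
  | empty => simp
  | insert a s ha ih =>
    rw [Finset.iSup_insert, Finset.sum_insert ha]
    refine (Submodule.finrank_add_le_finrank_add_finrank _ _).trans ?_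
    gcongr

theorem exists_sorted [Fintype ι] (c : ℕ) (col : ι → Fin c) :
    ∃ ts : List ι, ts.Nodup ∧ (∀ t, t ∈ ts) ∧ ts.Pairwise (fun t j => col t ≤ col j) := by
  have : Std.Total (fun t j : ι => col t ≤ col j) := ⟨fun a b => le_total _ _⟩
  have : IsTrans ι (fun t j => col t ≤ col j) := ⟨fun a b c hab hbc => le_trans hab hbc⟩
  refine ⟨(Finset.univ.toList).insertionSort (fun t j => col t ≤ col j), ?_, ?_, ?_⟩
  · exact (List.perm_insertionSort _ _).nodup_iff.2 (Finset.nodup_toList _)
  · intro t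
    rw [List.mem_insertionSort]
    simp
  · exact List.pairwise_insertionSort _ _

end

theorem abs (h0 : StmColor) (h1 : StmDL) (h2 : StmAngle) (h3 : StmImpl) (h4 : StmTree)
    (h5 : StmWeights) (h6 : StmHol) : StmAbs := by
  intro E _ _ _ T ι _ _ _ _ V adj g Δ hLoc hΔ hGap X near ν k hcov hns hnν hdisj S θ hθ n hn
  obtain ⟨col, hcol⟩ := h0 T adj hLoc.symm g hLoc.deg
  obtain ⟨colι, hcolι⟩ := h0 ι near hns ν hnν
  obtain ⟨ts, hnd, hall, hsort⟩ := exists_sorted (ν + 1) colι
  have hg : (0 : ℝ) < g := by exact_mod_cast hLoc.pos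
  set γ : ℝ := Δ / ((g : ℝ) ^ 2 + Δ) with hγ
  have hγ0 : 0 < γ := by positivity
  have hγ1 : γ ≤ 1 := by
    rw [hγ, div_le_one (by positivity)]
    nlinarith
  set η : ℝ := Real.sqrt ((g : ℝ) ^ 2 / ((g : ℝ) ^ 2 + Δ)) ^ k with hη
  have hη0 : 0 ≤ η := by positivity
  have hη1 : η ≤ 1 := by
    refine pow_le_one₀ (Real.sqrt_nonneg _) ?_
    rw [Real.sqrt_le_one, div_le_one (by positivity)]
    linarith
  -- the length and the sums
  have hperm : ts.toFinset = Finset.univ := by
    ext t; simp [hall t]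
  have hsum : ∀ f : ι → ℝ, (ts.map f).sum = ∑ t, f t := by
    intro f
    rw [← hperm, List.sum_toFinset f hnd]
  have hlen : ts.length = Fintype.card ι := by
    rw [← List.toFinset_card_of_nodup hnd, hperm, Finset.card_univ]
  have hfil : ∀ t, (ts.filter fun j => near t j).length ≤ ν := by
    intro t
    refine le_trans (le_of_eq ?_) (hnν t)
    rw [← List.toFinset_card_of_nodup (hnd.filter _)]
    congr 1
    ext j
    simp [hall j]
  obtain ⟨b, hb0, hbw, hb⟩ := h5 ι near (ν + 1) ν colι γ hγ0 hγ1 hns hcolι ts hnd hsort hfil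
  set w := wB γ (ν + 1) ν with hw
  have htree := h4 E T ι V X (fun t => Nb adj (k * (g + 1)) (X t))
    (fun t => Nb adj (k * (g + 1) + 1) (X t)) near η γ hη0 hη1 (fun t => sub_Nb _ _ _)
    (fun B t => h3 E T V adj g Δ hLoc hΔ.le hGap (g + 1) col hcol B (X t) k)
    (fun B t u hu hu' => h2 E T V adj g Δ hLoc hΔ.le hGap B (X t) u hu hu')
    (fun t j htj hnear => by
      have h := hdisj j t (Ne.symm htj) (fun h => hnear (hns _ _ h))
      exact Finset.disjoint_of_subset_left (sub_Nb _ _ _) h)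
    ts hnd b hb0 hb ∅ n
  set VVn := VV V X (fun t => Nb adj (k * (g + 1)) (X t))
    (fun t => Nb adj (k * (g + 1) + 1) (X t)) ts ∅ n with hVV
  -- vectors of `S` orthogonal to `VVn` vanish
  have hzero : ∀ u ∈ S, pr VVn u = 0 → u = 0 := by
    intro u hu hpu
    have h7 := htree u (by rw [G_empty]; trivial)
    rw [hpu, norm_zero] at h7
    have h8 : (ts.map fun j => b j * ‖u - pr (G V (X j)) u‖ ^ 2).sum ≤ w * (θ * ‖u‖ ^ 2) := by
      rw [hsum]
      calc ∑ t, b t * ‖u - pr (G V (X t)) u‖ ^ 2 ≤ ∑ t, w * ‖u - pr (G V (X t)) u‖ ^ 2 := by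
            refine Finset.sum_le_sum fun t _ => ?_
            exact mul_le_mul_of_nonneg_right (hbw t) (sq_nonneg _)
        _ = w * ∑ t, ‖u - pr (G V (X t)) u‖ ^ 2 := by rw [Finset.mul_sum]
        _ ≤ w * (θ * ‖u‖ ^ 2) := by
            refine mul_le_mul_of_nonneg_left (hθ u hu) ?_
            rw [hw, wB]
            positivity
    have h9 : (ts.map b).sum ≤ Fintype.card ι * w := by
      rw [hsum]
      calc ∑ t, b t ≤ ∑ _t : ι, w := Finset.sum_le_sum fun t _ => hbw t
        _ = Fintype.card ι * w := by rw [Finset.sum_const, Finset.card_univ, nsmul_eq_mul]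
    rw [hlen] at h7
    have h10 : (Fintype.card ι : ℝ) * η * (5 * n + 2 * (ts.map b).sum) * ‖u‖ ^ 2 ≤
        (Fintype.card ι : ℝ) * η * (5 * n + 2 * (Fintype.card ι * w)) * ‖u‖ ^ 2 := by
      gcongr
    have h11 : (n - (w * θ + (Fintype.card ι : ℝ) * η *
        (5 * n + 2 * (Fintype.card ι * w)))) * ‖u‖ ^ 2 ≤ 0 := by
      have : (n : ℝ) * (‖u‖ ^ 2 - 0 ^ 2) = n * ‖u‖ ^ 2 := by ring
      rw [this] at h7
      nlinarith
    have h12 : 0 < n - (w * θ + (Fintype.card ι : ℝ) * η *
        (5 * n + 2 * (Fintype.card ι * w))) := by linarith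
    have h13 : ‖u‖ ^ 2 ≤ 0 := by
      by_contra hcon
      push Not at hcon
      have := mul_pos h12 hcon
      linarith
    have h14 : ‖u‖ = 0 := by
      have := sq_nonneg ‖u‖
      exact pow_eq_zero_iff (two_ne_zero) |>.1 (le_antisymm h13 this)
    exact norm_eq_zero.1 h14
  -- comparison of the dimensions
  have hdim : Module.finrank ℂ S ≤ Module.finrank ℂ VVn := by
    let φ : S →ₗ[ℂ] VVn := (VVn.orthogonalProjectionOnto : E →ₗ[ℂ] VVn) ∘ₗ S.subtype
    refine LinearMap.finrank_le_finrank_of_injective (f := φ) ?_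
    rw [← LinearMap.ker_eq_bot, LinearMap.ker_eq_bot']
    intro u hu
    have hu' : VVn.orthogonalProjectionOnto (u : E) = 0 := hu
    have h15 : pr VVn (u : E) = 0 := by
      have := congrArg (fun z : VVn => (z : E)) hu'
      exact this
    exact Subtype.ext (hzero u u.2 h15)
  refine hdim.trans ?_
  have hle : VVn ≤ ⨆ F ∈ (Finset.univ : Finset (Finset ι)).filter (fun F => F.card < n),
      G V (Finset.univ \ hole adj near X (k * (g + 1)) (ν + 1) F) := by
    rw [hVV, VV]
    refine iSup_le fun F => ?_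
    refine le_trans ?_ (le_iSup₂ (f := fun (F : Finset ι) (_ : F ∈ (Finset.univ :
      Finset (Finset ι)).filter (fun F => F.card < n)) =>
      G V (Finset.univ \ hole adj near X (k * (g + 1)) (ν + 1) F)) F.1
      (Finset.mem_filter.2 ⟨Finset.mem_univ _, F.2.2⟩))
    refine G_anti V ?_
    have h16 := h6 T ι (fun t => Nb adj (k * (g + 1)) (X t))
      (fun t => Nb adj (k * (g + 1) + 1) (X t)) near (ν + 1) colι hns hcolι hdisj ts hnd hsort
      F.1 F.2.1
    intro x hx
    rw [Finset.mem_sdiff] at hx ⊢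
    refine ⟨?_, fun h => hx.2 (h16 h)⟩
    rw [Finset.empty_union]
    obtain ⟨t, ht⟩ := hcov x
    exact rest_mem X ts t (hall t) x ht
  exact (Submodule.finrank_mono hle).trans (finrank_biSup_le _ _)

end Pool.Agent.N427.FF
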